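import Pool.Agent.Lib_helper60.PQ.Defs
import Pool.Agent.Lib_helper7.GNF.P.GF
import Pool.Agent.Lib_helper7.GNF.P.DV
import Pool.Agent.Lib_helper7.TUN.Three2
import Pool.Agent.Lib_helper51.TM32.NFinal
import Pool.Agent.Lib_helper41.TM32.N8
import Pool.Agent.Lib_helper99.TM32.N1b

/-!
# Block C32: `c(pq) mod 32` from `h(pq) mod 8`
-/

set_option autoImplicit false

namespace Pool.Agent.PQ

open Finset Filter Topology Pool.Agent.TM32

namespace C32h6

theorem c_eq_tc (n : ℕ) : c n = GNF.tc n := rfl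

theorem c_eq_cT (n : ℕ) : c n = TUN.cT n := rfl

theorem c_eq_aT (n : ℕ) : c n = aT n := rfl

/-- for a prime `q ≡ 3 mod 8` there is exactly one positive solution of `2x² + z² = q` -/
theorem PB_one {q : ℕ} (hq : q.Prime) (h : q % 8 = 3) : TUN.PB q (2 * q + 3) (fun _ => 1) = 1 := by
  obtain ⟨r, hr⟩ := N1b99.exists_norm_p hq (Or.inr h)
  rw [nv] at hr
  set a := r.re with ha
  set b := r.im with hb
  have ha2 : a % 2 = 1 := by
    rcases Int.emod_two_eq_zero_or_one a with h1 | h1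
    · exfalso
      obtain ⟨k, hk⟩ : ∃ k, a = 2 * k := ⟨a / 2, by omega⟩
      have : (q : ℤ) = 2 * (2 * k ^ 2 + b ^ 2) := by rw [← hr, hk]; ring
      omega
    · exact h1
  have hb2 : b % 2 = 1 := by
    rcases Int.emod_two_eq_zero_or_one b with h1 | h1
    · exfalso
      obtain ⟨k, hk⟩ : ∃ k, a = 2 * k + 1 := ⟨a / 2, by omega⟩
      obtain ⟨l, hl⟩ : ∃ l, b = 2 * l := ⟨b / 2, by omega⟩
      obtain ⟨m, hm⟩ := Int.even_mul_succ_self k
      have : (q : ℤ) = 4 * (k * (k + 1)) + 8 * l ^ 2 + 1 := by rw [← hr, hk, hl]; ring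
      rw [hm] at this
      have hl2 : ∃ u, l ^ 2 = u := ⟨_, rfl⟩
      obtain ⟨u, hu⟩ := hl2
      rw [hu] at this
      omega
    · exact h1
  -- the representatives
  obtain ⟨A, hA⟩ : ∃ A : ℕ, |a| = 2 * (A : ℤ) + 1 := ⟨(|a| / 2).toNat, by
    have := abs_nonneg a
    have h2 : |a| % 2 = 1 := by rcases abs_cases a with h3 | h3 <;> omega
    omega⟩
  obtain ⟨B, hB⟩ : ∃ B : ℕ, |b| = 2 * (B : ℤ) + 1 := ⟨(|b| / 2).toNat, by
    have := abs_nonneg b
    have h2 : |b| % 2 = 1 := by rcases abs_cases b with h3 | h3 <;> omega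
    omega⟩
  have hAB : (2 * (A : ℤ) + 1) ^ 2 + 2 * (2 * (B : ℤ) + 1) ^ 2 = q := by
    rw [← hA, ← hB, sq_abs, sq_abs]; exact hr
  have hiff : ∀ x z : ℕ, (2 * (2 * (x : ℤ) + 1) ^ 2 + (2 * (z : ℤ) + 1) ^ 2 = (q : ℤ)) ↔ (x = B ∧ z = A) := by
    intro x z
    constructor
    · intro hx
      have h2 : (2 * (z : ℤ) + 1) ^ 2 + 2 * (2 * (x : ℤ) + 1) ^ 2 = q := by linarith
      rcases N8_four hq hAB h2 with ⟨h3, h4⟩ | ⟨h3, h4⟩ | ⟨h3, h4⟩ | ⟨h3, h4⟩ <;> omega
    · rintro ⟨rfl, rfl⟩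
      linarith
  have hBr : B ∈ range (2 * q + 3) := by
    rw [mem_range]
    have : (B : ℤ) < 2 * q + 3 := by nlinarith [sq_nonneg (2 * (A : ℤ) + 1)]
    exact_mod_cast this
  have hAr : A ∈ range (2 * q + 3) := by
    rw [mem_range]
    have : (A : ℤ) < 2 * q + 3 := by nlinarith [sq_nonneg (2 * (B : ℤ) + 1)]
    exact_mod_cast this
  unfold TUN.PB
  rw [Finset.sum_eq_single_of_mem B hBr, Finset.sum_eq_single_of_mem A hAr]
  · rw [if_pos ((hiff B A).2 ⟨rfl, rfl⟩)]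
  · intro z _ hz
    rw [if_neg (fun h' => hz ((hiff B z).1 h').2)]
  · intro x _ hx
    apply Finset.sum_eq_zero
    intro z _
    rw [if_neg (fun h' => hx ((hiff x z).1 h').1)]

theorem PS_par (n : ℤ) (L : ℕ) : (2 : ℤ) ∣ TUN.PS n L TUN.tw - TUN.PS n L (fun _ => 1) := by
  unfold TUN.PS TUN.R3
  rw [← Finset.sum_sub_distrib]
  refine Finset.dvd_sum fun a _ => ?_
  rw [← Finset.sum_sub_distrib]
  refine Finset.dvd_sum fun b _ => ?_
  rw [← Finset.sum_sub_distrib]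
  refine Finset.dvd_sum fun c _ => ?_
  beta_reduce
  rcases TUN.tw_cases (2 * (a : ℤ) + 1) with h | h <;> rw [h] <;> split_ifs <;> norm_num

/-- `c(q) ≡ 4 mod 8` for the primes `q ≡ 3 mod 8`, `q ≠ 3` -/
theorem c_three' {q : ℕ} (hq : q.Prime) (h : q % 8 = 3) (h3 : q ≠ 3) : c q % 8 = 4 := by
  have hk : ∀ k : ℤ, (q : ℤ) ≠ 3 * k ^ 2 := by
    intro k hk
    have h1 : (3 : ℕ) ∣ q := by
      have : (3 : ℤ) ∣ (q : ℤ) := ⟨k ^ 2, hk⟩
      exact_mod_cast this
    exact h3 ((Nat.prime_dvd_prime_iff_eq Nat.prime_three hq).1 h1).symm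
  obtain ⟨U, K, h4, -⟩ := TUN.three_main (q : ℤ) (by omega) (2 * q + 3) hk
  rw [PB_one hq h] at h4
  obtain ⟨m, hm⟩ := PS_par (q : ℤ) (2 * q + 3)
  rw [c_eq_cT, TUN.c_PS q h (2 * q + 3) le_rfl]
  have hs : TUN.sig3 (q : ℤ) = 1 ∨ TUN.sig3 (q : ℤ) = -1 := by unfold TUN.sig3; split_ifs <;> simp
  have hP : TUN.PS (q : ℤ) (2 * q + 3) TUN.tw = 6 * U + 3 + 2 * m := by linarith
  rw [hP]
  rcases hs with hs | hs <;> rw [hs] <;> ring_nf <;> omega

theorem c_three : c 3 = 4 := by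
  have hA : N9003ba20.A 3 = {((1 : ℤ), (1 : ℤ), (0 : ℤ)), (1, -1, 0), (-1, 1, 0), (-1, -1, 0)} := by
    ext ⟨x, y, z⟩
    simp only [N9003ba20.A, Set.mem_ofPred_eq, Set.mem_insert_iff, Set.mem_singleton_iff, Prod.mk.injEq]
    constructor
    · intro h
      push_cast at h
      have hz : z = 0 := by
        by_contra hz
        have : 1 ≤ z ^ 2 := by have := Int.one_le_abs hz; rw [← sq_abs]; nlinarith
        nlinarith [sq_nonneg x, sq_nonneg y]
      subst hz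
      have hx1 : x ≤ 1 := by nlinarith [sq_nonneg y]
      have hx2 : -1 ≤ x := by nlinarith [sq_nonneg y]
      have hy1 : y ≤ 1 := by nlinarith [sq_nonneg x]
      have hy2 : -1 ≤ y := by nlinarith [sq_nonneg x]
      interval_cases x <;> interval_cases y <;> simp_all
    · rintro (⟨rfl, rfl, rfl⟩ | ⟨rfl, rfl, rfl⟩ | ⟨rfl, rfl, rfl⟩ | ⟨rfl, rfl, rfl⟩) <;> norm_num
  have hB : N9003ba20.B 3 = {((1 : ℤ), (1 : ℤ), (0 : ℤ)), (1, -1, 0), (-1, 1, 0), (-1, -1, 0)} := by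
    ext ⟨x, y, z⟩
    simp only [N9003ba20.B, Set.mem_ofPred_eq, Set.mem_insert_iff, Set.mem_singleton_iff, Prod.mk.injEq]
    constructor
    · intro h
      push_cast at h
      have hz : z = 0 := by
        by_contra hz
        have : 1 ≤ z ^ 2 := by have := Int.one_le_abs hz; rw [← sq_abs]; nlinarith
        nlinarith [sq_nonneg x, sq_nonneg y]
      subst hz
      have hx1 : x ≤ 1 := by nlinarith [sq_nonneg y]
      have hx2 : -1 ≤ x := by nlinarith [sq_nonneg y]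
      have hy1 : y ≤ 1 := by nlinarith [sq_nonneg x]
      have hy2 : -1 ≤ y := by nlinarith [sq_nonneg x]
      interval_cases x <;> interval_cases y <;> simp_all
    · rintro (⟨rfl, rfl, rfl⟩ | ⟨rfl, rfl, rfl⟩ | ⟨rfl, rfl, rfl⟩ | ⟨rfl, rfl, rfl⟩) <;> norm_num
  have hc : ({((1 : ℤ), (1 : ℤ), (0 : ℤ)), (1, -1, 0), (-1, 1, 0), (-1, -1, 0)} :
      Set (ℤ × ℤ × ℤ)).ncard = 4 := by
    have : ({((1 : ℤ), (1 : ℤ), (0 : ℤ)), (1, -1, 0), (-1, 1, 0), (-1, -1, 0)} : Set (ℤ × ℤ × ℤ)) =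
        ((({((1 : ℤ), (1 : ℤ), (0 : ℤ)), (1, -1, 0), (-1, 1, 0), (-1, -1, 0)} :
          Finset (ℤ × ℤ × ℤ))) : Set (ℤ × ℤ × ℤ)) := by
      simp
    rw [this, Set.ncard_coe_finset]
    decide
  unfold c
  rw [hA, hB, hc]
  norm_num

theorem c_q {q : ℕ} (hq : q.Prime) (h : q % 8 = 3) : c q % 8 = 4 := by
  rcases eq_or_ne q 3 with rfl | h3
  · rw [c_three]; norm_num
  · exact c_three' hq h h3

theorem c_p {p : ℕ} (hp : p.Prime) (h : p % 8 = 1) : (8 : ℤ) ∣ c p := by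
  rw [c_eq_aT]
  rcases aT_cases hp h with h1 | h1 <;> omega

theorem div_pq {p q d : ℕ} (hp : p.Prime) (hq : q.Prime) (hd : d ∣ p * q) :
    d = 1 ∨ d = p ∨ d = q ∨ d = p * q := by
  rcases (Nat.dvd_mul.1 hd) with ⟨a, b, ha, hb, rfl⟩
  rcases (Nat.dvd_prime hp).1 ha with rfl | rfl <;> rcases (Nat.dvd_prime hq).1 hb with rfl | rfl <;> simp

end C32h6

open C32h6

theorem c_pq_h (p q : ℕ) [NeZero (p * q)] (hpq : Pair p q) :
    (p % 8 = 5 → c (p * q) ≡ 4 * (h (p * q) : ℤ) [ZMOD 32]) ∧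
    (p % 8 = 1 → (8 : ℤ) ∣ c p ∧ c (p * q) ≡ 4 * (h (p * q) : ℤ) + 2 * c p [ZMOD 32]) := by
  obtain ⟨hp, hq, hp4, hq4, h8⟩ := hpq
  have hne : p ≠ q := by rintro rfl; omega
  have hcop : Nat.Coprime p q := (Nat.coprime_primes hp hq).2 hne
  have hsq : Squarefree (p * q) :=
    (Nat.squarefree_mul hcop).2 ⟨hp.squarefree, hq.squarefree⟩
  have h1 : 1 < p * q := by nlinarith [hp.two_le, hq.two_le]
  have hw : (p * q).primeFactors.card = 2 := by
    rw [Nat.primeFactors_mul hp.ne_zero hq.ne_zero, hp.primeFactors, hq.primeFactors]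
    rw [Finset.card_union_of_disjoint (by simpa using hne)]
    simp
  have hGF := GNF.GF (p * q) h1 hsq (Or.inr h8) (fun _ => 1) (fun _ => Or.inl rfl) (fun h => by omega)
  rw [hw] at hGF
  have hpq8 : (p * q) % 8 = ((p % 8) * (q % 8)) % 8 := Nat.mul_mod p q 8
  have hpc : p % 8 = 1 ∨ p % 8 = 5 := by omega
  have hqc : q % 8 = 3 ∨ q % 8 = 7 := by omega
  have hnu1 : GNF.nu 1 = 0 := by simp [GNF.nu]
  have hnup : GNF.nu p = 0 := by
    unfold GNF.nu
    rw [hp.primeFactors, Finset.filter_singleton, if_neg (by omega), Finset.card_empty]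
  have htc1 : GNF.tc 1 = 2 := GNF.dv_tc1
  constructor
  · intro h5
    have hfil : (p * q).divisors.filter (fun d => d % 8 = 1) = {1} := by
      ext d
      rw [mem_filter, Nat.mem_divisors, mem_singleton]
      constructor
      · rintro ⟨⟨h2, _⟩, h3⟩
        rcases div_pq hp hq h2 with rfl | rfl | rfl | rfl <;> omega
      · rintro rfl
        exact ⟨⟨one_dvd _, by omega⟩, by norm_num⟩
    unfold GNF.Ss at hGF
    rw [hfil, Finset.sum_singleton, hnu1, htc1] at hGF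
    simp only [Nat.zero_div, pow_zero, one_mul, Nat.primeFactors_one, Finset.prod_empty, Nat.div_one] at hGF
    rw [Int.modEq_iff_dvd] at hGF ⊢
    obtain ⟨k, hk⟩ := hGF
    refine ⟨k, ?_⟩
    have hc : c (p * q) = GNF.tc (p * q) := rfl
    have hh : (h (p * q) : ℤ) = (Nat.card (ClassGroup (Zsqrtd (-((p * q : ℕ) : ℤ)))) : ℤ) := rfl
    rw [hc, hh]
    norm_num at hk ⊢
    linarith
  · intro h5
    have hq3 : q % 8 = 3 := by
      rcases hqc with h | h
      · exact h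
      · rw [h5, h] at hpq8; omega
    refine ⟨c_p hp h5, ?_⟩
    have hfil : (p * q).divisors.filter (fun d => d % 8 = 1) = {1, p} := by
      ext d
      rw [mem_filter, Nat.mem_divisors, mem_insert, mem_singleton]
      constructor
      · rintro ⟨⟨h2, _⟩, h3⟩
        rcases div_pq hp hq h2 with rfl | rfl | rfl | rfl
        · exact Or.inl rfl
        · exact Or.inr rfl
        · omega
        · omega
      · rintro (rfl | rfl)
        · exact ⟨⟨one_dvd _, by omega⟩, by norm_num⟩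
        · exact ⟨⟨dvd_mul_right _ _, by omega⟩, h5⟩
    have h1p : (1 : ℕ) ≠ p := hp.one_lt.ne
    unfold GNF.Ss at hGF
    rw [hfil, Finset.sum_pair h1p, hnu1, hnup, htc1] at hGF
    simp only [Nat.zero_div, pow_zero, one_mul, Nat.primeFactors_one, Nat.div_one,
      Finset.prod_const_one] at hGF
    rw [Nat.mul_div_cancel_left q hp.pos] at hGF
    have hc : c (p * q) = GNF.tc (p * q) := rfl
    have hcp : c p = GNF.tc p := rfl
    have hcq : c q = GNF.tc q := rfl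
    have hh : (h (p * q) : ℤ) = (Nat.card (ClassGroup (Zsqrtd (-((p * q : ℕ) : ℤ)))) : ℤ) := rfl
    rw [← hc, ← hcp, ← hcq, ← hh] at hGF
    obtain ⟨a, ha⟩ := c_p hp h5
    obtain ⟨b, hb⟩ : ∃ b, c q = 8 * b + 4 := ⟨c q / 8, by have := c_q hq hq3; omega⟩
    rw [Int.modEq_iff_dvd] at hGF ⊢
    obtain ⟨k, hk⟩ := hGF
    rw [ha, hb] at hk
    rw [ha]
    refine ⟨k + a * b + a, ?_⟩
    norm_num at hk ⊢
    linarith

end Pool.Agent.PQ
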